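import Pool.Agent.H354.BG.Stm

set_option autoImplicit false

namespace Pool.Agent.H662.BG.ADM3

open Pool.Agent.H354.BG
open Pool.Agent.H482R3.EA (W inv ev PP xx evF cond1 cond2 Syl gOf Sys St Near InD Adm Act)
open Pool.Agent.H482R3.EB (tot wp alt rels AR gR TR Tame Symm alt_length)

variable {α β γ : Type} [Primcodable α] [Primcodable β] [Primcodable γ]

theorem cp_comp {p : β → Prop} (hp : ComputablePred p) {f : α → β} (hf : Computable f) :
    ComputablePred (fun x => p (f x)) := by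
  obtain ⟨d, h⟩ := hp
  exact ⟨fun x => d (f x), h.comp hf⟩

theorem cp_const (q : Prop) : ComputablePred (fun _ : α => q) := by
  classical
  exact ⟨fun _ => Classical.propDecidable q, Computable.const _⟩

theorem cp_finite [Finite β] (p : β → Prop) : ComputablePred p := by
  classical
  exact ⟨fun x => Classical.propDecidable (p x), (Primrec.dom_finite _).to_comp⟩

theorem cp_and {p q : α → Prop} (hp : ComputablePred p) (hq : ComputablePred q) :
    ComputablePred (fun x => p x ∧ q x) :=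
  (Pool.Agent.H482R3.EB.Asm.cp α inferInstance 0).1 p q hp hq

theorem cp_or {p q : α → Prop} (hp : ComputablePred p) (hq : ComputablePred q) :
    ComputablePred (fun x => p x ∨ q x) :=
  (Pool.Agent.H482R3.EB.Asm.cp α inferInstance 0).2.1 p q hp hq

theorem re_ex {p : α × ℕ → Prop} (hp : ComputablePred p) :
    REPred (fun x : α => ∃ y, p (x, y)) :=
  Pool.Agent.H482R3.EB.Asm.rex α ℕ inferInstance inferInstance p hp.to_re

/-- a case distinction -/
theorem cp_cases {δ₁ δ₂ δ₃ : Type} [Primcodable δ₁] [Primcodable δ₂] [Primcodable δ₃]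
    (f : δ₁ → Bool) (g : δ₃ → Bool) (hf : Computable f) (hg : Computable g) :
    Computable (fun s : Option (δ₁ ⊕ (δ₂ ⊕ δ₃)) =>
      (Option.casesOn s true (fun x => (Sum.casesOn x (fun y => f y)
        (fun z => (Sum.casesOn z (fun _ => true) (fun y => g y) : Bool)) : Bool)) : Bool)) := by
  refine Computable.option_casesOn Computable.id (Computable.const true) ?_
  refine Computable.sumCasesOn (f := fun q : Option (δ₁ ⊕ (δ₂ ⊕ δ₃)) × (δ₁ ⊕ (δ₂ ⊕ δ₃)) => q.2)
    Computable.snd ?_ ?_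
  · exact hf.comp Computable.snd
  · refine Computable.sumCasesOn (f := fun q : (Option (δ₁ ⊕ (δ₂ ⊕ δ₃)) × (δ₁ ⊕ (δ₂ ⊕ δ₃))) ×
      (δ₂ ⊕ δ₃) => q.2) Computable.snd ?_ ?_
    · exact Computable.const true
    · exact hg.comp Computable.snd

/-- validity of the last syllable is decidable -/
theorem cp_okO (D : Dat) (U : Finset (Fin D.r)) (b : Fin D.r) :
    ComputablePred (fun s : Option (Sy D) => okO D U b s) := by
  classical
  obtain ⟨F, hF, hF'⟩ : ∃ F : Fin D.n → Bool, Computable F ∧ ∀ v, (F v = true ↔ D.β v = b) :=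
    ⟨fun v => decide (D.β v = b), (Primrec.dom_finite _).to_comp, fun v => decide_eq_true_iff⟩
  obtain ⟨L, hL, hL'⟩ : ∃ L : Fin D.n × Fin D.n → Bool, Computable L ∧
      ∀ v, (L v = true ↔ okL D U b v.1 v.2) :=
    ⟨fun v => decide (okL D U b v.1 v.2), (Primrec.dom_finite _).to_comp,
      fun v => decide_eq_true_iff⟩
  have h1 : Computable (fun y : W (Fin D.n) × Fin D.n × Bool × ℕ => F y.2.1) :=
    hF.comp (Computable.fst.comp Computable.snd)
  have h2 : Computable (fun y : W (Fin D.n) × Fin D.n × Fin D.n × W ℕ => L (y.2.1, y.2.2.1)) :=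
    hL.comp ((Computable.fst.comp Computable.snd).pair
      (Computable.fst.comp (Computable.snd.comp Computable.snd)))
  have h := cp_cases (δ₂ := W (Fin D.n) × W (Fin D.n)) _ _ h1 h2
  refine ComputablePred.computable_iff.2 ⟨_, h, funext fun s => propext ?_⟩
  rcases s with _ | (⟨g', v', x⟩ | (⟨g', y⟩ | ⟨g', v', w', y⟩))
  · exact iff_of_true trivial rfl
  · exact (hF' v').symm
  · exact iff_of_true trivial rfl
  · exact (hL' (v', w')).symm

theorem t_ADM3X (hbas : S_BASX) (hn : S_NEARX) (hm : S_MEETX) (hu : S_UNIJ) : S_ADM3X := by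
  intro D U b hbU hSys hWP hR
  let σ : Type := Option (Sy D) × (W (Fin D.n) × Fin D.n × Fin D.n × W ℕ)
  change ComputablePred (fun p : σ => okO D U b p.1 ∧ AdmW D U b p.1 (.inr (.inr p.2)))
  -- projections
  have ps : Computable (fun p : σ => p.1) := Computable.fst
  have pg : Computable (fun p : σ => p.2.1) := Computable.fst.comp Computable.snd
  have pv : Computable (fun p : σ => p.2.2.1) :=
    Computable.fst.comp (Computable.snd.comp Computable.snd)
  have pw : Computable (fun p : σ => p.2.2.2.1) :=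
    Computable.fst.comp (Computable.snd.comp (Computable.snd.comp Computable.snd))
  have py : Computable (fun p : σ => p.2.2.2.2) :=
    Computable.snd.comp (Computable.snd.comp (Computable.snd.comp Computable.snd))
  obtain ⟨hNear, -, hInd⟩ := hn D U b hbU hWP hR
  have hMeet := hm D U b hbU hWP hR
  have hOK : ComputablePred (fun p : σ => okO D U b p.1) := cp_comp (cp_okO D U b) ps
  -- fixed generators
  have key : ∀ (v0 w0 : Fin D.n), ComputablePred (fun p : σ =>
      okO D U b p.1 ∧ okL D U b v0 w0 ∧ ¬ InDL D U b p.2.1 v0 w0 p.1 ∧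
      (((∀ j : ℤ, ¬ NearW D U b (p.2.1 ++ wp w0 j) v0 p.1) ∧
        cond1 (kk D v0 w0) p.2.2.2.2) ∨
       (∃ j : ℤ, NearW D U b (p.2.1 ++ wp w0 j) v0 p.1 ∧
        cond2 (kk D v0 w0) j p.2.2.2.2))) := by
    intro v0 w0
    by_cases hc : okL D U b v0 w0
    swap
    · refine (cp_const (α := σ) False).of_eq fun p => ?_
      constructor
      · exact False.elim
      · rintro ⟨-, h, -⟩
        exact hc h
    have hk2 : 2 ≤ kk D v0 w0 := (kk_spec D hc).1
    have hvb : D.β v0 = b := hc.1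
    -- near, with a coded exponent
    have hE1 : ComputablePred (fun q : σ × ℕ => okO D U b q.1.1 ∧ D.β v0 = b ∧
        NearW D U b (q.1.2.1 ++ wp w0 ((q.2.unpair.1 : ℤ) - (q.2.unpair.2 : ℤ))) v0 q.1.1) := by
      have f1 : Computable (fun q : σ × ℕ =>
          wp w0 ((q.2.unpair.1 : ℤ) - (q.2.unpair.2 : ℤ))) :=
        (hbas D).2.2.1.comp
          (f := fun p : Fin D.n × (ℕ × ℕ) => wp p.1 ((p.2.1 : ℤ) - (p.2.2 : ℤ)))
          (g := fun q : σ × ℕ => (w0, q.2.unpair))
          ((Computable.const w0).pair (Computable.unpair.comp Computable.snd))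
      have f2 : Computable (fun q : σ × ℕ =>
          q.1.2.1 ++ wp w0 ((q.2.unpair.1 : ℤ) - (q.2.unpair.2 : ℤ))) :=
        Computable.list_append.comp (pg.comp Computable.fst) f1
      exact cp_comp (f := fun q : σ × ℕ =>
        ((q.1.2.1 ++ wp w0 ((q.2.unpair.1 : ℤ) - (q.2.unpair.2 : ℤ)), v0), q.1.1)) hNear
        ((f2.pair (Computable.const v0)).pair (ps.comp Computable.fst))
    have hE2 : ComputablePred (fun q : σ × ℕ => cond2 (kk D v0 w0)
        ((q.2.unpair.1 : ℤ) - (q.2.unpair.2 : ℤ)) q.1.2.2.2.2) :=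
      cp_comp (f := fun q : σ × ℕ => (q.2.unpair, q.1.2.2.2.2))
        (Pool.Agent.H482R3.EB.Asm.c2 _ hk2)
        ((Computable.unpair.comp Computable.snd).pair (py.comp Computable.fst))
    have hC1 : ComputablePred (fun p : σ => cond1 (kk D v0 w0) p.2.2.2.2) :=
      cp_comp (f := fun p : σ => p.2.2.2.2) (Pool.Agent.H482R3.EB.Asm.c1 _ hk2) py
    have hIN : ComputablePred (fun p : σ => okO D U b p.1 ∧ okL D U b v0 w0 ∧
        InDL D U b p.2.1 v0 w0 p.1) :=
      cp_comp (f := fun p : σ => ((p.2.1, v0, w0), p.1)) hInd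
        ((pg.pair ((Computable.const v0).pair (Computable.const w0))).pair ps)
    have hME : ComputablePred (fun p : σ => okO D U b p.1 ∧ okL D U b v0 w0 ∧
        MeetX D U b p.2.1 v0 w0 p.1) :=
      cp_comp (f := fun p : σ => ((p.2.1, v0, w0), p.1)) hMeet
        ((pg.pair ((Computable.const v0).pair (Computable.const w0))).pair ps)
    -- the good states
    let G : σ → Prop := fun p => okO D U b p.1 ∧ ¬ (okO D U b p.1 ∧ okL D U b v0 w0 ∧
        InDL D U b p.2.1 v0 w0 p.1)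
    let M : σ → Prop := fun p => okO D U b p.1 ∧ okL D U b v0 w0 ∧
        MeetX D U b p.2.1 v0 w0 p.1
    have hG : ComputablePred G := cp_and hOK (ComputablePred.not hIN)
    have hGM : ComputablePred (fun p : σ => G p ∧ M p) := cp_and hG hME
    have hGM' : ComputablePred (fun q : σ × ℕ => G q.1 ∧ M q.1) :=
      cp_comp hGM Computable.fst
    let T : σ → Prop := fun p => (G p ∧ M p) ∧ ∃ j : ℤ,
      NearW D U b (p.2.1 ++ wp w0 j) v0 p.1 ∧ cond2 (kk D v0 w0) j p.2.2.2.2
    have hjj : ∀ j : ℤ, (((Nat.pair j.toNat (-j).toNat).unpair.1 : ℕ) : ℤ) -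
        (((Nat.pair j.toNat (-j).toNat).unpair.2 : ℕ) : ℤ) = j := by
      intro j
      rw [Nat.unpair_pair]
      show ((j.toNat : ℕ) : ℤ) - (((-j).toNat : ℕ) : ℤ) = j
      omega
    have hT1 : REPred T := by
      have h := re_ex (cp_and hGM' (cp_and hE1 hE2))
      refine h.of_eq fun p => ?_
      constructor
      · rintro ⟨n, h1, ⟨-, -, h2⟩, h3⟩
        exact ⟨h1, _, h2, h3⟩
      · rintro ⟨h1, j, h2, h3⟩
        refine ⟨Nat.pair j.toNat (-j).toNat, h1, ⟨h1.1.1, hvb, ?_⟩, ?_⟩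
        · show NearW D U b (p.2.1 ++ wp w0 _) v0 p.1
          rw [hjj j]; exact h2
        · show cond2 (kk D v0 w0) _ p.2.2.2.2
          rw [hjj j]; exact h3
    have hT2 : REPred (fun p => ¬ T p) := by
      have h := re_ex (cp_or (ComputablePred.not hGM')
        (cp_and hGM' (cp_and hE1 (ComputablePred.not hE2))))
      refine h.of_eq fun p => ?_
      constructor
      · rintro ⟨n, h1 | ⟨h1, ⟨-, -, h2⟩, h3⟩⟩ ⟨h4, j, h5, h6⟩
        · exact h1 h4
        · have hnd : ¬ InDL D U b p.2.1 v0 w0 p.1 := fun h7 => h1.1.2 ⟨h1.1.1, hc, h7⟩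
          have hj := hu D U b hbU hSys p.2.1 v0 w0 p.1 _ _ h1.1.1 hc hnd h2 h5
          rw [← hj] at h6
          exact h3 h6
      · intro h1
        by_cases h2 : G p ∧ M p
        · obtain ⟨j, hj⟩ := h2.2.2.2
          refine ⟨Nat.pair j.toNat (-j).toNat, Or.inr ⟨h2, ⟨h2.1.1, hvb, ?_⟩, ?_⟩⟩
          · show NearW D U b (p.2.1 ++ wp w0 _) v0 p.1
            rw [hjj j]; exact hj
          · show ¬ cond2 (kk D v0 w0) _ p.2.2.2.2
            rw [hjj j]
            exact fun h3 => h1 ⟨h2, j, hj, h3⟩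
        · exact ⟨0, Or.inl h2⟩
    have hT : ComputablePred T := ComputablePred.computable_iff_re_compl_re'.2 ⟨hT1, hT2⟩
    have hall := cp_and hG (cp_or (cp_and (ComputablePred.not hME) hC1) hT)
    refine hall.of_eq fun p => ?_
    constructor
    · rintro ⟨hg, hrest⟩
      have hnd : ¬ InDL D U b p.2.1 v0 w0 p.1 := fun h7 => hg.2 ⟨hg.1, hc, h7⟩
      refine ⟨hg.1, hc, hnd, ?_⟩
      rcases hrest with ⟨hA, hC⟩ | hE
      · exact Or.inl ⟨fun j hj => hA ⟨hg.1, hc, j, hj⟩, hC⟩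
      · exact Or.inr hE.2
    · rintro ⟨hok, -, hnd, hrest⟩
      refine ⟨⟨hok, fun h => hnd h.2.2⟩, ?_⟩
      rcases hrest with ⟨hA, hC⟩ | ⟨j, hj, hj2⟩
      · left
        refine ⟨?_, hC⟩
        rintro ⟨-, -, j, hj⟩
        exact hA j hj
      · right
        exact ⟨⟨⟨hok, fun h => hnd h.2.2⟩, ⟨hok, hc, j, hj⟩⟩, j, hj, hj2⟩
  -- splitting
  have hfin : ComputablePred (fun p : σ => ∃ v0 : Fin D.n, ∃ w0 : Fin D.n,
      (p.2.2.1 = v0 ∧ p.2.2.2.1 = w0) ∧ (okO D U b p.1 ∧ okL D U b v0 w0 ∧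
      ¬ InDL D U b p.2.1 v0 w0 p.1 ∧
      (((∀ j : ℤ, ¬ NearW D U b (p.2.1 ++ wp w0 j) v0 p.1) ∧
        cond1 (kk D v0 w0) p.2.2.2.2) ∨
       (∃ j : ℤ, NearW D U b (p.2.1 ++ wp w0 j) v0 p.1 ∧
        cond2 (kk D v0 w0) j p.2.2.2.2)))) := by
    refine (Pool.Agent.H482R3.EB.Asm.cp σ inferInstance D.n).2.2.2 _ fun v0 => ?_
    refine (Pool.Agent.H482R3.EB.Asm.cp σ inferInstance D.n).2.2.2 _ fun w0 => ?_
    refine cp_and ?_ (key v0 w0)
    exact cp_comp (p := fun y : Fin D.n × Fin D.n => y.1 = v0 ∧ y.2 = w0) (cp_finite _)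
      (pv.pair pw)
  refine hfin.of_eq fun p => ?_
  obtain ⟨s, g, v, w, y⟩ := p
  constructor
  · rintro ⟨v0, w0, ⟨rfl, rfl⟩, h⟩
    exact h
  · intro h
    exact ⟨v, w, ⟨rfl, rfl⟩, h⟩

end Pool.Agent.H662.BG.ADM3
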